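import Pool.Agent.H.MP_0c67ff_ag.A

set_option autoImplicit false

namespace Pool.Agent.Spd

open Pool.Agent.PdOne Pool.Agent.PdFun MvPolynomial

variable {k : Type} [Field k] {σ : Type} [DecidableEq σ]

/-- Indicator exponents. -/
noncomputable def ind (F : Finset σ) : σ →₀ ℕ := Finsupp.indicator F fun _ _ => 1

omit [DecidableEq σ] in
lemma ind_le {F : Finset σ} {a : σ →₀ ℕ} : ind F ≤ a ↔ F ⊆ a.support := by
  classical
  refine ⟨fun h v hv => ?_, fun h v => ?_⟩
  · have := h v
    rw [ind, Finsupp.indicator_of_mem hv] at this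
    exact Finsupp.mem_support_iff.2 (by omega)
  · by_cases hv : v ∈ F
    · have := Finsupp.mem_support_iff.1 (h hv)
      rw [ind, Finsupp.indicator_of_mem hv]
      omega
    · rw [ind, Finsupp.indicator_of_notMem hv]
      exact zero_le

omit [DecidableEq σ] in
lemma supp_ind (F : Finset σ) : (ind F).support = F :=
  le_antisymm (Finsupp.support_indicator_subset _ _) (ind_le.1 le_rfl)

omit [DecidableEq σ] in
lemma mon_ind (F : Finset σ) : monomial (ind F) (1 : k) = ∏ v ∈ F, X v := by
  simpa [ind] using (prod_X_pow (R := k) (fun _ => 1) F).symm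

variable (k) in
/-- Squarefree monomial ideals. -/
noncomputable def IL (L : List (Finset σ)) : Ideal (MvPolynomial σ k) :=
  Ideal.span ((fun s => monomial s (1 : k)) '' (ind '' {F | F ∈ L}))

omit [DecidableEq σ] in
lemma mem_IL {L : List (Finset σ)} {f : MvPolynomial σ k} :
    f ∈ IL k L ↔ ∀ a ∈ f.support, ∃ F ∈ L, F ⊆ a.support := by
  simp [IL, mem_ideal_span_monomial_image, ind_le]

lemma colon_IL (L : List (Finset σ)) (G : Finset σ) (c : MvPolynomial σ k) :
    c ∈ IL k (L.map (· \ G)) ↔ c * monomial (ind G) 1 ∈ IL k L := by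
  have e : ∀ (F : Finset σ) (a : σ →₀ ℕ), F ⊆ (a + ind G).support ↔ F \ G ⊆ a.support :=
    fun F a => by
      rw [Finsupp.support_add_eq_union, supp_ind, Finset.union_comm]
      exact sdiff_le_iff.symm
  simp only [mem_IL, List.mem_map]
  refine ⟨fun h a ha => ?_, fun h a ha => ?_⟩
  · obtain ⟨b, hb, c, hc, rfl⟩ := supp_mul ha
    obtain rfl := Finset.mem_singleton.1 (support_monomial_subset hc)
    obtain ⟨_, ⟨F, hF, rfl⟩, h1⟩ := h b hb
    exact ⟨F, hF, (e F b).2 h1⟩
  · obtain ⟨F, hF, h1⟩ := h _ (supp_mul_mono.2 ha)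
    exact ⟨_, ⟨F, hF, rfl⟩, (e F a).1 h1⟩

lemma pd_cons {L : List (Finset σ)} {G : Finset σ} {n : ℕ}
    (h1 : PD (MvPolynomial σ k) (IL k (L.map (· \ G))) n)
    (h2 : PD (MvPolynomial σ k) (IL k L) (n + 1)) :
    PD (MvPolynomial σ k) (IL k (G :: L)) (n + 1) := by
  have : IL k (G :: L) = IL k L ⊔ Ideal.span {monomial (ind G) 1} := by
    rw [IL, IL, ← Ideal.span_union, Set.union_singleton,
      show {F | F ∈ G :: L} = insert G {F | F ∈ L} from Set.ext fun _ => by simp,
      Set.image_insert_eq, Set.image_insert_eq]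
  rw [this]
  exact pd_up' _ _ _ (colon_IL L G) h1 h2

lemma taylor : ∀ (n : ℕ) (L : List (Finset σ)), L.length = n → PD (MvPolynomial σ k) (IL k L) n
  | 0, L, h => by
    rw [List.length_eq_zero_iff.1 h, show IL k ([] : List (Finset σ)) = ⊥ by simp [IL]]
    exact pd_zero
  | n + 1, G :: L, h => pd_cons (taylor n _ (by simpa using h))
      ((taylor n _ (by simpa using h)).mono n.le_succ)

lemma pd_congr {L L' : List (Finset σ)} {n : ℕ} (h : PD (MvPolynomial σ k) (IL k L) n)
    (h1 : (L.all fun F => L'.any fun F' => F' ⊆ F) = true)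
    (h2 : (L'.all fun F => L.any fun F' => F' ⊆ F) = true) :
    PD (MvPolynomial σ k) (IL k L') n := by
  simp only [List.all_eq_true, List.any_eq_true, decide_eq_true_eq] at h1 h2
  have : ∀ L L' : List (Finset σ), (∀ F ∈ L, ∃ F' ∈ L', F' ⊆ F) → IL k L ≤ IL k L' :=
    fun L L' h f hf => mem_IL.2 fun a ha => by
      obtain ⟨F, hF, h1⟩ := mem_IL.1 hf a ha
      obtain ⟨F', hF', h2⟩ := h F hF
      exact ⟨F', hF', h2.trans h1⟩
  rwa [← le_antisymm (this _ _ h1) (this _ _ h2)]

variable [Fintype σ]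

lemma key0 (p : σ → MvPolynomial σ k) (h : ∑ v, X v * p v = 0) (v : σ) :
    ∃ y : σ → MvPolynomial σ k, p v = ∑ w, X w * y w := by
  have h1 : p v ∈ Ideal.span (Set.range X) := by
    rw [← Set.image_univ, mem_ideal_span_X_image]
    intro m hm
    by_contra h2
    obtain rfl : m = 0 := by
      ext i
      simpa using fun h => h2 ⟨i, trivial, h⟩
    have := congrArg (coeff (Finsupp.single v 1)) h
    rw [coeff_sum, Finset.sum_eq_single v (fun w _ hw => by
      rw [coeff_X_mul', if_neg (by simpa using hw)]) (by simp), coeff_X_mul', if_pos (by simp),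
      tsub_self] at this
    exact mem_support_iff.1 hm this
  obtain ⟨y, hy⟩ := Ideal.mem_span_range_iff_exists_fun.1 h1
  exact ⟨y, by simp [← hy, mul_comm]⟩

lemma key {P : Type} [AddCommGroup P] [Module (MvPolynomial σ k) P]
    [Module.Projective (MvPolynomial σ k) P] (p : σ → P)
    (h : ∑ v, (X v : MvPolynomial σ k) • p v = 0) (v : σ) :
    ∃ y : σ → P, p v = ∑ w, (X w : MvPolynomial σ k) • y w := by
  obtain ⟨s, hs⟩ := Module.projective_def.1 (inferInstance : Module.Projective
    (MvPolynomial σ k) P)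
  have h1 : ∀ q, ∃ y : σ → MvPolynomial σ k, s (p v) q = ∑ w, X w * y w := fun q =>
    key0 (fun v => s (p v) q) (by
      simpa [Finsupp.finsetSum_apply] using congrArg (fun x => s x q) h) v
  choose y hy using h1
  refine ⟨fun w => ∑ q ∈ (s (p v)).support, y q w • q, ?_⟩
  conv_lhs => rw [← hs (p v), Finsupp.linearCombination_apply, Finsupp.sum]
  simp only [Finset.smul_sum, hy, Finset.sum_smul, mul_smul, id]
  exact Finset.sum_comm

end Pool.Agent.Spd
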