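import Pool.Agent.H.MP_718c62_al.A

set_option autoImplicit false

namespace Pool.Agent.Spd

open Pool.Agent.PdOne Pool.Agent.PdFun MvPolynomial

variable {k : Type} [Field k]

/-- Supports of the six generators. -/
def M : Fin 6 → Finset (Fin 10) := ![{5, 6, 7, 8, 9}, {1, 2, 3, 6, 8}, {2, 3, 4, 7, 9},
  {0, 3, 4, 5, 8}, {0, 1, 4, 6, 9}, {0, 1, 2, 5, 7}]

lemma upper : PD (MvPolynomial (Fin 10) k) (IL k (List.ofFn M)) 4 := by
  have T := taylor (k := k) (σ := Fin 10)
  have a1 := pd_cons (L := [{3, 6, 8}, {4, 6, 9}, {6, 8, 9}]) (G := {3, 4, 9})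
    (pd_congr ((T 1 [{6}] rfl).mono one_le_two) (by decide) (by decide)) (T 3 _ rfl)
  have a2 := pd_cons (G := {3, 4, 8}) (pd_congr (T 2 [{9}, {6}] rfl) (by decide) (by decide)) a1
  have a3 := pd_cons (L := [{2, 3, 8}, {5, 7, 8}, {3, 5, 8}]) (G := {2, 3, 7})
    (pd_congr ((T 1 [{8}] rfl).mono one_le_two) (by decide) (by decide)) (T 3 _ rfl)
  have a4 := pd_cons (L := [M 0, M 1, M 2, M 3]) (G := M 4)
    (pd_congr a3 (by decide) (by decide)) (T 4 _ rfl)
  exact pd_congr (pd_cons (G := M 5) (pd_congr a2 (by decide) (by decide)) a4) (by decide)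
    (by decide)

variable (k) in
/-- Squarefree monomials. -/
noncomputable abbrev xs (F : Finset (Fin 10)) : MvPolynomial (Fin 10) k := ∏ v ∈ F, X v

variable (k) in
/-- First syzygies. -/
noncomputable def sig (i j : Fin 6) : Fin 6 → MvPolynomial (Fin 10) k :=
  Pi.single i (xs k (M j \ M i)) - Pi.single j (xs k (M i \ M j))

variable (k) in
/-- The presentation of the ideal. -/
noncomputable def pp : (Fin 6 → MvPolynomial (Fin 10) k) →ₗ[MvPolynomial (Fin 10) k]
    MvPolynomial (Fin 10) k := Fintype.linearCombination _ fun i => xs k (M i)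

lemma sig_mem (i j : Fin 6) : sig k i j ∈ LinearMap.ker (pp k) := by
  have : ∀ A B : Finset (Fin 10), xs k (A \ B) * xs k B = xs k (A ∪ B) := fun A B => by
    rw [← Finset.prod_union Finset.sdiff_disjoint, Finset.sdiff_union_self_eq_union]
  rw [LinearMap.mem_ker, sig, map_sub, pp, Fintype.linearCombination_apply_single,
    Fintype.linearCombination_apply_single, smul_eq_mul, smul_eq_mul, this, this,
    Finset.union_comm, sub_self]

lemma two {a b : Fin 10} {A B : Finset (Fin 10)} (i : Fin 6)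
    (h : a ∉ A ∧ b ∉ B ∧ insert a A = insert b B) :
    (X a : MvPolynomial (Fin 10) k) • (Pi.single i (xs k A) : Fin 6 → _) =
      (X b : MvPolynomial (Fin 10) k) • (Pi.single i (xs k B) : Fin 6 → _) := by
  rw [← Pi.single_smul', ← Pi.single_smul', smul_eq_mul, smul_eq_mul, ← Finset.prod_insert h.1,
    ← Finset.prod_insert h.2.1, h.2.2]

/-- Data of the triangles. -/
def ti : Fin 10 → Fin 6 := ![0, 0, 0, 0, 0, 1, 2, 1, 2, 1]
/-- Data of the triangles. -/
def tj : Fin 10 → Fin 6 := ![1, 2, 3, 4, 1, 2, 3, 3, 4, 3]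
/-- Data of the triangles. -/
def tl : Fin 10 → Fin 6 := ![2, 3, 4, 5, 5, 4, 5, 4, 5, 5]
/-- Data of the triangles. -/
def ta : Fin 10 → Fin 10 := ![5, 6, 7, 8, 9, 8, 9, 2, 3, 6]
/-- Data of the triangles. -/
def tb : Fin 10 → Fin 10 := ![1, 2, 3, 4, 3, 7, 8, 5, 6, 4]
/-- Data of the triangles. -/
def tc : Fin 10 → Fin 10 := ![4, 0, 1, 2, 0, 0, 1, 9, 5, 7]

/-- Second syzygies. -/
def zz {R P : Type} [CommRing R] [AddCommGroup P] [Module R P] (x : Fin 10 → R)
    (p : Fin 6 → Fin 6 → P) (t : Fin 10) : P :=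
  x (tc t) • p (ti t) (tj t) - x (tb t) • p (ti t) (tl t) + x (ta t) • p (tj t) (tl t)

lemma zz_sig (t : Fin 10) : zz (X : Fin 10 → MvPolynomial (Fin 10) k) (sig k) t = 0 := by
  have h1 := two (k := k) (a := tc t) (b := tb t) (A := M (tj t) \ M (ti t))
    (B := M (tl t) \ M (ti t)) (ti t) (by revert t; decide)
  have h2 := two (k := k) (a := tc t) (b := ta t) (A := M (ti t) \ M (tj t))
    (B := M (tl t) \ M (tj t)) (tj t) (by clear h1; revert t; decide)
  have h3 := two (k := k) (a := tb t) (b := ta t) (A := M (ti t) \ M (tl t))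
    (B := M (tj t) \ M (tl t)) (tl t) (by clear h1 h2; revert t; decide)
  simp only [zz, sig, smul_sub, h1, h2, h3]
  abel

lemma zz_sum {R P : Type} [CommRing R] [AddCommGroup P] [Module R P] (x : Fin 10 → R)
    (p : Fin 6 → Fin 6 → P) (h : (2 : R) = 0) : ∑ t, x t • zz x p t = 0 := by
  have : ∑ t, x t • zz x p t = (2 : R) • ((x 0 * x 4) • p 0 1 + (x 0 * x 5) • p 1 2 +
      (x 1 * x 6) • p 2 3 + (x 2 * x 7) • p 3 4 - (x 3 * x 4) • p 0 5 + (x 3 * x 8) • p 4 5 -
      (x 5 * x 7) • p 1 4 + (x 5 * x 8) • p 2 4 - (x 6 * x 8) • p 2 5 + (x 6 * x 9) • p 3 5 +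
      (x 7 * x 9) • p 1 3) := by
    simp [Fin.sum_univ_succ, zz, ti, tj, tl, ta, tb, tc]
    module
  rw [this, h, zero_smul]

lemma zz_zero {R P : Type} [CommRing R] [AddCommGroup P] [Module R P] (x : Fin 10 → R)
    (p : Fin 6 → Fin 6 → P) :
    ∑ w, x w • ![0, -p 0 2, 0, 0, p 0 1, p 1 2, 0, 0, 0, 0] w = zz x p 0 := by
  simp [Fin.sum_univ_succ, zz, ti, tj, tl, ta, tb, tc]
  abel

lemma range_pp : LinearMap.range (pp k) = IL k (List.ofFn M) := by
  rw [pp, Fintype.range_linearCombination, IL, Ideal.span, ← Set.image_comp,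
    show {F | F ∈ List.ofFn M} = Set.range M from Set.ext fun _ => List.mem_ofFn' _ _,
    ← Set.range_comp]
  exact congrArg _ (congrArg _ (funext fun i => (mon_ind _).symm))

lemma ker_deg {y : Fin 6 → MvPolynomial (Fin 10) k} (h : y ∈ LinearMap.ker (pp k)) (w : Fin 10) :
    coeff (ind (M 1 \ M 0)) (X w * y 0) = 0 := by
  have h1 : y 0 ∈ IL k ((List.ofFn fun i : Fin 5 => M i.succ).map (· \ M 0)) := by
    rw [colon_IL, mon_ind]
    rw [LinearMap.mem_ker, pp, Fintype.linearCombination_apply, Fin.sum_univ_succ,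
      add_eq_zero_iff_eq_neg, smul_eq_mul] at h
    rw [h]
    refine neg_mem (sum_mem fun i _ => Ideal.mul_mem_left _ _ (Ideal.subset_span
      ⟨_, ⟨_, ?_, rfl⟩, mon_ind _⟩))
    exact List.mem_ofFn.2 ⟨i, rfl⟩
  rw [coeff_X_mul']
  split_ifs with hw
  · by_contra h2
    obtain ⟨F, hF, h3⟩ := mem_IL.1 h1 _ (mem_support_iff.2 h2)
    have h4 : F ⊆ (M 1 \ M 0).erase w := fun v hv => by
      have h5 := Finsupp.mem_support_iff.1 (h3 hv)
      rw [Finsupp.tsub_apply] at h5
      have h6 : v ∈ M 1 \ M 0 := by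
        rw [← supp_ind (M 1 \ M 0), Finsupp.mem_support_iff]
        omega
      refine Finset.mem_erase.2 ⟨?_, h6⟩
      rintro rfl
      rw [ind, Finsupp.indicator_of_mem h6] at h5
      simp at h5
    rw [supp_ind] at hw
    have h7 : ((List.ofFn fun i : Fin 5 => M i.succ).map (· \ M 0)).all (3 ≤ ·.card) = true := by
      decide
    have h8 := Finset.card_le_card h4
    have h9 := of_decide_eq_true (List.all_eq_true.1 h7 F hF)
    rw [Finset.card_erase_of_mem hw, show (M 1 \ M 0).card = 3 by decide] at h8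
    omega
  · rfl

lemma core [CharP k 2] {P Z : Type} [AddCommGroup P] [Module (MvPolynomial (Fin 10) k) P]
    [AddCommGroup Z] [Module (MvPolynomial (Fin 10) k) Z]
    [Module.Projective (MvPolynomial (Fin 10) k) P] (f : P →ₗ[MvPolynomial (Fin 10) k] Z)
    [Module.Projective (MvPolynomial (Fin 10) k) (LinearMap.ker f)] (p : Fin 6 → Fin 6 → P)
    (h : zz (X : Fin 10 → MvPolynomial (Fin 10) k) (fun i j => f (p i j)) = 0) :
    ∃ u : Fin 10 → Z, f (p 0 1) = ∑ w, (X w : MvPolynomial (Fin 10) k) • u w := by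
  have h2 : ∀ t, zz (X : Fin 10 → MvPolynomial (Fin 10) k) p t ∈ LinearMap.ker f := fun t => by
    rw [LinearMap.mem_ker, zz, map_add, map_sub, map_smul, map_smul, map_smul]
    exact congrFun h t
  obtain ⟨y, hy⟩ := key (k := k) (fun t => (⟨_, h2 t⟩ : LinearMap.ker f)) (Subtype.ext (by
    simp only [AddSubmonoidClass.coe_finsetSum, SetLike.val_smul]
    exact zz_sum X p CharTwo.two_eq_zero)) 0
  obtain ⟨u, hu⟩ := key (k := k)
    (fun w => ![0, -p 0 2, 0, 0, p 0 1, p 1 2, 0, 0, 0, 0] w - (y w).1) (by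
    have := congrArg Subtype.val hy
    simp only [smul_sub, Finset.sum_sub_distrib, sub_eq_zero]
    simp only [AddSubmonoidClass.coe_finsetSum, SetLike.val_smul] at this
    rw [← this]
    exact zz_zero _ p) 4
  have h4 : f (y 4).1 = 0 := (y 4).2
  have h3 : f (p 0 1 - (y 4).1) = _ := congrArg f hu
  refine ⟨fun w => f (u w), ?_⟩
  simpa only [map_sub, h4, sub_zero, map_sum, map_smul] using h3

lemma lower [CharP k 2] : ¬ PD (MvPolynomial (Fin 10) k) (IL k (List.ofFn M)) 3 := fun h => by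
  rw [← range_pp] at h
  have h1 : PD (MvPolynomial (Fin 10) k) (LinearMap.ker (pp k)) 2 :=
    pd1 (LinearMap.ker (pp k)).subtype (pp k).rangeRestrict (by
      rw [← LinearMap.ker_rangeRestrict]
      exact LinearMap.exact_subtype_ker_map _) (Submodule.injective_subtype _)
      (LinearMap.surjective_rangeRestrict _) pd_proj h
  obtain ⟨m, f, hf, hp⟩ := cover_of_pd h1
  choose p hp' using fun i j => hf ⟨sig k i j, sig_mem i j⟩
  obtain ⟨u, hu⟩ := core f p (funext fun t => by
    simp only [hp']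
    exact Subtype.ext (zz_sig t))
  rw [hp'] at hu
  have h2 : sig k 0 1 0 = ∑ w, X w * (u w).1 0 := by
    have := congrArg (fun q => (LinearMap.proj 0 ∘ₗ (LinearMap.ker (pp k)).subtype) q) hu
    simp only [map_sum, map_smul] at this
    exact this
  have h3 := congrArg (coeff (ind (M 1 \ M 0))) h2
  simp only [coeff_sum, ker_deg (u _).2] at h3
  simp [sig, xs, ← mon_ind] at h3

end Pool.Agent.Spd
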