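import Pool.Agent.H.MP_718c62_al.B

set_option autoImplicit false

namespace Pool.Agent.Spd

open MvPolynomial

/-- Subsets coded by numbers. -/
def bits (n : ℕ) : Finset (Fin 10) := Finset.univ.filter fun i => n.testBit i

lemma bits_sub {a b : ℕ} (ha : a < 2 ^ 10) : bits a ⊆ bits b ↔ a &&& b = a := by
  refine ⟨fun h => Nat.eq_of_testBit_eq fun i => ?_, fun h i hi => ?_⟩
  · rw [Nat.testBit_and]
    by_cases hi : i < 10
    · have := @h ⟨i, hi⟩
      simp only [bits, Finset.mem_filter, Finset.mem_univ, true_and] at this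
      cases h1 : a.testBit i
      · rfl
      · simp [this h1]
    · simp [Nat.testBit_lt_two_pow (ha.trans_le (Nat.pow_le_pow_right two_pos (not_lt.1 hi)))]
  · simp only [bits, Finset.mem_filter, Finset.mem_univ, true_and] at hi ⊢
    rw [← h, Nat.testBit_and, Bool.and_eq_true] at hi
    exact hi.2

lemma bits_surj (F : Finset (Fin 10)) : ∃ n < 2 ^ 10, bits n = F :=
  ⟨Nat.ofBits fun i : Fin 10 => decide (i ∈ F), Nat.ofBits_lt_two_pow _, by
    ext i
    simp [bits]⟩

/-- Bottoms of the intervals. -/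
def dA (i : Fin 60) : ℕ := (1297836867112035870396770054958319592533041196712993580496201047597076153709617180019110040991151569547852814646611034801055951881737137001647978177760635007425579193609335705050203 >>> (10 * i.1)) % 2 ^ 10

/-- Tops of the intervals. -/
def dB (i : Fin 60) : ℕ := (3999431365375960229160950195306212482264536811306684339460821906536357174678144756647384589245811057419267696015964810123611730208042964642109456182839617798514645547187315223526527 >>> (10 * i.1)) % 2 ^ 10

/-- Codes of the generators. -/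
def mN : Fin 6 → ℕ := ![992, 334, 668, 313, 595, 167]

lemma chk : ∀ n < 2 ^ 10, (Finset.univ.filter fun i => dA i &&& n = dA i ∧ n &&& dB i = n).card =
    if ∃ j, mN j &&& n = mN j then 0 else 1 := by
  decide +kernel

lemma chk' : ∀ i, bits (dA i) ⊆ bits (dB i) ∧ (bits (dB i)).card = 7 := by
  decide +kernel

lemma part (F : Finset (Fin 10)) :
    (Finset.univ.filter fun i => bits (dA i) ⊆ F ∧ F ⊆ bits (dB i)).card =
      if ∃ j, M j ⊆ F then 0 else 1 := by
  obtain ⟨n, hn, rfl⟩ := bits_surj F
  have h1 : ∀ j, M j = bits (mN j) ∧ mN j < 2 ^ 10 := by decide +kernel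
  have h2 : ∀ j, M j ⊆ bits n ↔ mN j &&& n = mN j := fun j => by
    rw [(h1 j).1, bits_sub (h1 j).2]
  have h3 : ∀ i, bits (dA i) ⊆ bits n ↔ dA i &&& n = dA i := fun i =>
    bits_sub (Nat.mod_lt _ (by decide))
  simp only [h2, h3, bits_sub hn]
  exact chk n hn

lemma space {A B : Finset (Fin 10)} (h : A ⊆ B) (a : Fin 10 →₀ ℕ) :
    (∃ m : Fin 10 →₀ ℕ, m.support ⊆ B ∧ a = ind A + m) ↔ A ⊆ a.support ∧ a.support ⊆ B := by
  constructor
  · rintro ⟨m, hm, rfl⟩
    rw [Finsupp.support_add_eq_union, supp_ind]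
    exact ⟨Finset.subset_union_left, Finset.union_subset h hm⟩
  · rintro ⟨h1, h2⟩
    exact ⟨a - ind A, Finsupp.support_tsub.trans h2, (add_tsub_cancel_of_le (ind_le.2 h1)).symm⟩

lemma mono_mem {k : Type} [Field k] (a : Fin 10 →₀ ℕ) :
    monomial a (1 : k) ∈ IL k (List.ofFn M) ↔ ∃ j, M j ⊆ a.support := by
  classical
  rw [mem_IL, support_monomial, if_neg one_ne_zero]
  simp only [Finset.mem_singleton, forall_eq, List.mem_ofFn, exists_exists_eq_and]

lemma big : ∀ Z : Finset (Fin 10), 7 < Z.card → ∃ j, M j ⊆ Z := by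
  decide +kernel

end Pool.Agent.Spd
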